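import Mathlib

open MeasureTheory Set Metric Filter Topology

noncomputable section

namespace Pool.Agent.Helper88.Sup

abbrev En (n : ℕ) := EuclideanSpace ℝ (Fin n)

variable {n : ℕ}

/-- test functions on `Ω` -/
structure IsTest (Ω : Set (En n)) (φ : En n → ℝ) : Prop where
  smooth : ContDiff ℝ (⊤ : ℕ∞) φ
  cs : HasCompactSupport φ
  sub : tsupport φ ⊆ Ω

/-- lowest Dirichlet eigenvalue -/
def lam1 (Ω : Set (En n)) : ℝ :=
  sInf {r : ℝ | ∃ φ : En n → ℝ, IsTest Ω φ ∧ φ ≠ 0 ∧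
    r = (∫ x, ‖gradient φ x‖ ^ 2) / ∫ x, φ x ^ 2}

structure MemH10 (Ω : Set (En n)) (u : En n → ℝ) (G : En n → En n) : Prop where
  memu : MemLp u 2 volume
  memG : MemLp G 2 volume
  approx : ∃ φ : ℕ → En n → ℝ, (∀ k, IsTest Ω (φ k)) ∧
    Tendsto (fun k => ∫ x, (u x - φ k x) ^ 2) atTop (𝓝 0) ∧
    Tendsto (fun k => ∫ x, ‖G x - gradient (φ k) x‖ ^ 2) atTop (𝓝 0)

lemma norm_grad {φ : En n → ℝ} (x : En n) : ‖gradient φ x‖ = ‖fderiv ℝ φ x‖ := by
  unfold gradient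
  rw [LinearIsometryEquiv.norm_map]

lemma inner_grad {φ : En n → ℝ} (x v : En n) : inner ℝ (gradient φ x) v = fderiv ℝ φ x v := by
  unfold gradient
  rw [InnerProductSpace.toDual_symm_apply]

lemma IsTest.cont {Ω : Set (En n)} {φ : En n → ℝ} (h : IsTest Ω φ) : Continuous φ :=
  h.smooth.continuous

lemma IsTest.diff {Ω : Set (En n)} {φ : En n → ℝ} (h : IsTest Ω φ) : Differentiable ℝ φ :=
  h.smooth.differentiable (by simp)

lemma IsTest.fderiv_cont {Ω : Set (En n)} {φ : En n → ℝ} (h : IsTest Ω φ) :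
    Continuous (fderiv ℝ φ) :=
  h.smooth.continuous_fderiv (by simp)

lemma IsTest.grad_cont {Ω : Set (En n)} {φ : En n → ℝ} (h : IsTest Ω φ) :
    Continuous (gradient φ) := by
  unfold gradient
  exact (LinearIsometryEquiv.continuous _).comp h.fderiv_cont

lemma IsTest.grad_cs {Ω : Set (En n)} {φ : En n → ℝ} (h : IsTest Ω φ) :
    HasCompactSupport (gradient φ) := by
  have := h.cs.fderiv (𝕜 := ℝ)
  unfold gradient
  exact this.comp_left (g := (InnerProductSpace.toDual ℝ (En n)).symm) (map_zero _)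

lemma IsTest.mem {Ω : Set (En n)} {φ : En n → ℝ} (h : IsTest Ω φ) (p : ENNReal) :
    MemLp φ p volume :=
  h.cont.memLp_of_hasCompactSupport h.cs

lemma IsTest.grad_mem {Ω : Set (En n)} {φ : En n → ℝ} (h : IsTest Ω φ) (p : ENNReal) :
    MemLp (gradient φ) p volume :=
  h.grad_cont.memLp_of_hasCompactSupport h.grad_cs

lemma IsTest.zero_out {Ω : Set (En n)} {φ : En n → ℝ} (h : IsTest Ω φ) {x : En n} (hx : x ∉ Ω) :
    φ x = 0 :=
  image_eq_zero_of_notMem_tsupport fun h' => hx (h.sub h')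

lemma lam1_bdd (Ω : Set (En n)) : BddBelow {r : ℝ | ∃ φ : En n → ℝ, IsTest Ω φ ∧ φ ≠ 0 ∧
    r = (∫ x, ‖gradient φ x‖ ^ 2) / ∫ x, φ x ^ 2} := by
  refine ⟨0, ?_⟩
  rintro r ⟨φ, -, -, rfl⟩
  exact div_nonneg (integral_nonneg fun _ => sq_nonneg _) (integral_nonneg fun _ => sq_nonneg _)

lemma lam1_nonneg (Ω : Set (En n)) : 0 ≤ lam1 Ω := by
  apply Real.sInf_nonneg
  rintro r ⟨φ, -, -, rfl⟩
  exact div_nonneg (integral_nonneg fun _ => sq_nonneg _) (integral_nonneg fun _ => sq_nonneg _)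

lemma sq_pos_of_ne {Ω : Set (En n)} {φ : En n → ℝ} (h : IsTest Ω φ) (h0 : φ ≠ 0) :
    0 < ∫ x, φ x ^ 2 := by
  have hc : Continuous fun x => φ x ^ 2 := h.cont.pow 2
  have hcs : HasCompactSupport fun x => φ x ^ 2 := by
    have := h.cs.comp_left (g := fun t : ℝ => t ^ 2) (by simp)
    exact this
  obtain ⟨x, hx⟩ := Function.ne_iff.mp h0
  exact hc.integral_pos_of_hasCompactSupport_nonneg_nonzero hcs (fun _ => sq_nonneg _)
    (x := x) (by simpa using hx)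

lemma lam1_le {Ω : Set (En n)} {φ : En n → ℝ} (h : IsTest Ω φ) :
    lam1 Ω * ∫ x, φ x ^ 2 ≤ ∫ x, ‖gradient φ x‖ ^ 2 := by
  by_cases h0 : φ = 0
  · subst h0
    simp only [Pi.zero_apply, ne_eq, OfNat.ofNat_ne_zero, not_false_eq_true, zero_pow,
      integral_zero, mul_zero]
    exact integral_nonneg fun _ => sq_nonneg _
  · have hp := sq_pos_of_ne h h0
    rw [← le_div_iff₀ hp]
    exact csInf_le (lam1_bdd Ω) ⟨φ, h, h0, rfl⟩

end Pool.Agent.Helper88.Sup
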