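import Mathlib
import Pool.Agent.Helper88.Sup.Def

open MeasureTheory Set Metric Filter Topology

noncomputable section

namespace Pool.Agent.Helper88.Sup

section gen

variable {X : Type*} [MeasurableSpace X] {μ : Measure X} {F : Type*} [NormedAddCommGroup F]
  [InnerProductSpace ℝ F]

lemma inner_int {f g : X → F} (hf : MemLp f 2 μ) (hg : MemLp g 2 μ) :
    Integrable (fun x => inner ℝ (f x) (g x)) μ := by
  have := L2.integrable_inner (𝕜 := ℝ) (hf.toLp f) (hg.toLp g)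
  refine (integrable_congr ?_).mp this
  filter_upwards [hf.coeFn_toLp, hg.coeFn_toLp] with x h1 h2
  rw [h1, h2]

lemma inner_toLp {f g : X → F} (hf : MemLp f 2 μ) (hg : MemLp g 2 μ) :
    inner ℝ (hf.toLp f) (hg.toLp g) = ∫ x, inner ℝ (f x) (g x) ∂μ := by
  rw [L2.inner_def]
  apply integral_congr_ae
  filter_upwards [hf.coeFn_toLp, hg.coeFn_toLp] with x h1 h2
  rw [h1, h2]

lemma normsq_toLp {f : X → F} (hf : MemLp f 2 μ) :
    ‖hf.toLp f‖ ^ 2 = ∫ x, ‖f x‖ ^ 2 ∂μ := by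
  rw [← real_inner_self_eq_norm_sq, inner_toLp hf hf]
  simp only [real_inner_self_eq_norm_sq]

lemma sq_int {f : X → F} (hf : MemLp f 2 μ) : Integrable (fun x => ‖f x‖ ^ 2) μ := by
  have := inner_int hf hf
  simpa only [real_inner_self_eq_norm_sq] using this

/-- Cauchy-Schwarz -/
lemma cs {f g : X → F} (hf : MemLp f 2 μ) (hg : MemLp g 2 μ) :
    |∫ x, inner ℝ (f x) (g x) ∂μ| ≤ √(∫ x, ‖f x‖ ^ 2 ∂μ) * √(∫ x, ‖g x‖ ^ 2 ∂μ) := by
  rw [← inner_toLp hf hg, ← normsq_toLp hf, ← normsq_toLp hg, Real.sqrt_sq (norm_nonneg _),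
    Real.sqrt_sq (norm_nonneg _)]
  exact abs_real_inner_le_norm _ _

lemma toLp_tendsto {f : X → F} {fk : ℕ → X → F} (hf : MemLp f 2 μ) (hk : ∀ k, MemLp (fk k) 2 μ)
    (h : Tendsto (fun k => ∫ x, ‖f x - fk k x‖ ^ 2 ∂μ) atTop (𝓝 0)) :
    Tendsto (fun k => (hk k).toLp (fk k)) atTop (𝓝 (hf.toLp f)) := by
  rw [tendsto_iff_norm_sub_tendsto_zero]
  have h2 : ∀ k, ‖(hk k).toLp (fk k) - hf.toLp f‖ = √(∫ x, ‖f x - fk k x‖ ^ 2 ∂μ) := by
    intro k
    rw [norm_sub_rev, ← MemLp.toLp_sub hf (hk k)]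
    have := normsq_toLp (hf.sub (hk k))
    simp only [Pi.sub_apply] at this
    rw [← this, Real.sqrt_sq (norm_nonneg _)]
  simp only [h2]
  rw [show (0:ℝ) = √0 by simp]
  exact (Real.continuous_sqrt.tendsto _).comp h

lemma inner_tendsto {f g : X → F} {fk gk : ℕ → X → F} (hf : MemLp f 2 μ)
    (hfk : ∀ k, MemLp (fk k) 2 μ) (hg : MemLp g 2 μ) (hgk : ∀ k, MemLp (gk k) 2 μ)
    (h : Tendsto (fun k => ∫ x, ‖f x - fk k x‖ ^ 2 ∂μ) atTop (𝓝 0))
    (h' : Tendsto (fun k => ∫ x, ‖g x - gk k x‖ ^ 2 ∂μ) atTop (𝓝 0)) :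
    Tendsto (fun k => ∫ x, inner ℝ (fk k x) (gk k x) ∂μ) atTop
      (𝓝 (∫ x, inner ℝ (f x) (g x) ∂μ)) := by
  have h1 := (toLp_tendsto hf hfk h).inner (toLp_tendsto hg hgk h') (𝕜 := ℝ)
  simpa only [inner_toLp] using h1

lemma normsq_tendsto {f : X → F} {fk : ℕ → X → F} (hf : MemLp f 2 μ)
    (hfk : ∀ k, MemLp (fk k) 2 μ)
    (h : Tendsto (fun k => ∫ x, ‖f x - fk k x‖ ^ 2 ∂μ) atTop (𝓝 0)) :
    Tendsto (fun k => ∫ x, ‖fk k x‖ ^ 2 ∂μ) atTop (𝓝 (∫ x, ‖f x‖ ^ 2 ∂μ)) := by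
  have := inner_tendsto hf hfk hf hfk h h
  simpa only [real_inner_self_eq_norm_sq] using this

end gen

variable {n : ℕ}

/-- real-valued versions -/
lemma mul_int' {X : Type*} [MeasurableSpace X] {μ : Measure X} {f g : X → ℝ} (hf : MemLp f 2 μ)
    (hg : MemLp g 2 μ) : Integrable (fun x => f x * g x) μ := by
  have := inner_int hf hg
  refine (integrable_congr (Eventually.of_forall fun x => ?_)).mp this
  simp [mul_comm]

lemma cs' {X : Type*} [MeasurableSpace X] {μ : Measure X} {f g : X → ℝ} (hf : MemLp f 2 μ)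
    (hg : MemLp g 2 μ) :
    |∫ x, f x * g x ∂μ| ≤ √(∫ x, f x ^ 2 ∂μ) * √(∫ x, g x ^ 2 ∂μ) := by
  have := cs hf hg
  have e : ∀ x, inner ℝ (f x) (g x) = f x * g x := fun x => by simp [mul_comm]
  simpa only [e, Real.norm_eq_abs, sq_abs] using this

lemma mul_tendsto' {X : Type*} [MeasurableSpace X] {μ : Measure X} {f g : X → ℝ}
    {fk gk : ℕ → X → ℝ} (hf : MemLp f 2 μ)
    (hfk : ∀ k, MemLp (fk k) 2 μ) (hg : MemLp g 2 μ) (hgk : ∀ k, MemLp (gk k) 2 μ)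
    (h : Tendsto (fun k => ∫ x, (f x - fk k x) ^ 2 ∂μ) atTop (𝓝 0))
    (h' : Tendsto (fun k => ∫ x, (g x - gk k x) ^ 2 ∂μ) atTop (𝓝 0)) :
    Tendsto (fun k => ∫ x, fk k x * gk k x ∂μ) atTop (𝓝 (∫ x, f x * g x ∂μ)) := by
  have := inner_tendsto hf hfk hg hgk (by simpa only [Real.norm_eq_abs, sq_abs] using h)
    (by simpa only [Real.norm_eq_abs, sq_abs] using h')
  have e : ∀ a b : ℝ, inner ℝ a b = a * b := fun a b => by simp [mul_comm]
  simpa only [e] using this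

lemma sq_tendsto' {X : Type*} [MeasurableSpace X] {μ : Measure X} {f : X → ℝ}
    {fk : ℕ → X → ℝ} (hf : MemLp f 2 μ) (hfk : ∀ k, MemLp (fk k) 2 μ)
    (h : Tendsto (fun k => ∫ x, (f x - fk k x) ^ 2 ∂μ) atTop (𝓝 0)) :
    Tendsto (fun k => ∫ x, fk k x ^ 2 ∂μ) atTop (𝓝 (∫ x, f x ^ 2 ∂μ)) := by
  simpa only [sq] using mul_tendsto' hf hfk hf hfk h h

/-- functions of `H¹₀(Ω)` vanish outside `Ω` -/
lemma MemH10.zero_out {Ω : Set (En n)} {u : En n → ℝ} {G : En n → En n} (h : MemH10 Ω u G)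
    (hΩ : MeasurableSet Ω) : ∀ᵐ x, x ∉ Ω → u x = 0 := by
  obtain ⟨φ, hφ, hu, -⟩ := h.approx
  have h0 : ∫ x in Ωᶜ, u x ^ 2 = 0 := by
    have hnn : 0 ≤ ∫ x in Ωᶜ, u x ^ 2 := integral_nonneg fun _ => sq_nonneg _
    have hle : ∀ k, ∫ x in Ωᶜ, u x ^ 2 ≤ ∫ x, (u x - φ k x) ^ 2 := by
      intro k
      have hi : Integrable (fun x => (u x - φ k x) ^ 2) := by
        have := sq_int (h.memu.sub ((hφ k).mem 2))
        simpa only [Real.norm_eq_abs, sq_abs, Pi.sub_apply] using this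
      calc ∫ x in Ωᶜ, u x ^ 2 = ∫ x in Ωᶜ, (u x - φ k x) ^ 2 := by
            apply setIntegral_congr_fun hΩ.compl
            intro x hx
            simp only
            rw [(hφ k).zero_out hx, sub_zero]
        _ ≤ ∫ x, (u x - φ k x) ^ 2 :=
            setIntegral_le_integral hi (Eventually.of_forall fun _ => sq_nonneg _)
    have := ge_of_tendsto' hu hle
    linarith
  have hi : IntegrableOn (fun x => u x ^ 2) Ωᶜ := by
    have := sq_int h.memu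
    simp only [Real.norm_eq_abs, sq_abs] at this
    exact this.integrableOn
  rw [setIntegral_eq_zero_iff_of_nonneg_ae (Eventually.of_forall fun _ => sq_nonneg _) hi] at h0
  rw [Filter.EventuallyEq, ae_restrict_iff' hΩ.compl] at h0
  filter_upwards [h0] with x hx hxΩ
  have := hx hxΩ
  simpa using this

end Pool.Agent.Helper88.Sup
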